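import Pool.Agent.TalK.Level

/-!
# Balanced sets of arbitrary positive Gaussian measure

If `K` is a balanced compact set of real sequences of Gaussian measure at least `δ > 0`, then the
`(2 m + 3)`-fold sum of `K` contains a compact convex set of Gaussian measure at least `1 - ε` as
soon as `π (m δ)² ≥ 8 log ((1 + 2 ε) / (δ ε))`.
-/

set_option autoImplicit false

open MeasureTheory ProbabilityTheory Set

namespace Pool.Agent.Results.MP_9049cc_pr.EveryLevel

open Pool.Agent.TalK

/-- Let `0 < δ` and `0 < ε < 1`, and let `m` be a natural number with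
`8 log ((1 + 2 ε) / (δ ε)) ≤ π (m δ)²`. For every balanced compact set `K` of real sequences with
Gaussian measure at least `δ`, the `(2 m + 3)`-fold Minkowski sum of `K` contains a compact convex
set of Gaussian measure at least `1 - ε`. -/
theorem result (δ ε : ℝ) (hδ : 0 < δ) (hε : 0 < ε) (hε1 : ε < 1) (m : ℕ)
    (hm : 8 * Real.log ((1 + 2 * ε) / (δ * ε)) ≤ Real.pi * (m * δ) ^ 2)
    (K : Set (ℕ → ℝ)) (hK : IsCompact K) (hbal : Balanced ℝ K)
    (hKδ : δ ≤ (Measure.infinitePi (fun _ : ℕ => gaussianReal 0 1)).real K) :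
    ∃ C : Set (ℕ → ℝ), IsCompact C ∧ Convex ℝ C ∧
      C ⊆ {x : ℕ → ℝ | ∃ y : Fin (2 * m + 3) → ℕ → ℝ, (∀ i, y i ∈ K) ∧ x = ∑ i, y i} ∧
      1 - ε ≤ (Measure.infinitePi (fun _ : ℕ => gaussianReal 0 1)).real C :=
  level hK hbal hδ hKδ hε hε1 hm

end Pool.Agent.Results.MP_9049cc_pr.EveryLevel
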