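import Pool.Agent.TalK.Level

/-!
# Three summands

Every compact set `K` of real sequences with Gaussian measure at least `α > 2/3` has the property
that `K - (1/2) K - (1/2) K` contains a compact convex set of Gaussian measure at least
`1 - (1 - α) / (2 α - 1)`; for balanced `K` this set lies in `K + K + K`.
-/

set_option autoImplicit false

open MeasureTheory ProbabilityTheory Set
open scoped Pointwise

namespace Pool.Agent.Results.MP_9049cc_pr.ThreeSummands

open Pool.Agent.TalK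

/-- Let `K` be a compact set of real sequences of Gaussian measure at least `α > 2/3`. There is a
compact convex set `C` all of whose points have the form `a - b / 2 - c / 2` with `a, b, c ∈ K`,
which is contained in `K + K + K` if `K` is balanced, and whose Gaussian measure is at least
`1 - (1 - α) / (2 α - 1)`. -/
theorem result (K : Set (ℕ → ℝ)) (hK : IsCompact K) (α : ℝ) (hα : 2 / 3 < α)
    (hKα : α ≤ (Measure.infinitePi (fun _ : ℕ => gaussianReal 0 1)).real K) :
    ∃ C : Set (ℕ → ℝ), IsCompact C ∧ Convex ℝ C ∧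
      (∀ x ∈ C, ∃ a ∈ K, ∃ b ∈ K, ∃ c ∈ K, x = a - (1 / 2 : ℝ) • b - (1 / 2 : ℝ) • c) ∧
      (Balanced ℝ K → C ⊆ K + K + K) ∧
      1 - (1 - α) / (2 * α - 1)
        ≤ (Measure.infinitePi (fun _ : ℕ => gaussianReal 0 1)).real C := by
  obtain ⟨C, h1, h2, h3, h4⟩ := infinite_dim hK hα hKα
  have h5 : ∀ x ∈ C, ∃ a ∈ K, ∃ b ∈ K, ∃ c ∈ K,
      x = a - (1 / 2 : ℝ) • b - (1 / 2 : ℝ) • c := by
    intro x hx
    obtain ⟨⟨a, b, c⟩, ⟨ha, hb, hc⟩, rfl⟩ := h3 hx
    refine ⟨a, ha, b, hb, c, hc, ?_⟩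
    simp only
    module
  refine ⟨C, h1, h2, h5, ?_, h4⟩
  intro hbal x hx
  obtain ⟨a, ha, b, hb, c, hc, rfl⟩ := h5 x hx
  have hn : ‖(-(1 / 2) : ℝ)‖ ≤ 1 := by
    rw [Real.norm_eq_abs, abs_neg, abs_of_pos] <;> norm_num
  refine ⟨a + (-(1 / 2) : ℝ) • b, ⟨a, ha, _, hbal.smul_mem hn hb, rfl⟩, _,
    hbal.smul_mem hn hc, ?_⟩
  module

end Pool.Agent.Results.MP_9049cc_pr.ThreeSummands
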